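import Pool.Agent.U527.Rasa.Sign

set_option autoImplicit false

open Real MeasureTheory Set Filter Topology

namespace Pool.Agent.U527.Rasa

lemma g_pos_of_nonneg {p : ℝ} (hp : 0 ≤ p) (s : ℝ) : 0 < g p s := by
  unfold g
  refine intervalIntegral.intervalIntegral_pos_of_pos_on ?_ (fun φ hφ => ?_) pi_pos
  · apply Continuous.intervalIntegrable
    have hc : Continuous (fun φ => W s φ) := by unfold W; fun_prop
    exact hc.rpow_const fun φ => Or.inr hp
  · apply rpow_pos_of_pos
    unfold W
    have : 0 < cos (φ / 2) := cos_pos_of_mem_Ioo ⟨by have := hφ.1; linarith [pi_pos], by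
      have := hφ.2; linarith⟩
    positivity

lemma g_continuous {p : ℝ} (hp : 0 ≤ p) : Continuous (g p) := by
  unfold g
  apply intervalIntegral.continuous_parametric_intervalIntegral_of_continuous'
  exact W_cont.rpow_const fun z => Or.inr hp

lemma log_deriv {p : ℝ} {s : ℝ} (hs : 0 < s) :
    HasDerivAt (fun s => Real.log (g p s)) (g1 p s / g p s) s :=
  (hasDerivAt_g p hs).log (g_pos_of_pos p hs).ne'

lemma log_deriv2 {p : ℝ} {s : ℝ} (hs : 0 < s) :
    HasDerivAt (fun s => g1 p s / g p s) ((g p s * g2 p s - g1 p s ^ 2) / g p s ^ 2) s := by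
  refine ((hasDerivAt_g1 p hs).div (hasDerivAt_g p hs) (g_pos_of_pos p hs).ne').congr_deriv ?_
  congr 1
  ring

lemma convex_of_key {p : ℝ} {D : Set ℝ} (hD : Convex ℝ D)
    (hc : ContinuousOn (fun s => Real.log (g p s)) D) (hpos : ∀ s ∈ interior D, 0 < s)
    (hk : ∀ s ∈ interior D, 0 ≤ g p s * g2 p s - g1 p s ^ 2) :
    ConvexOn ℝ D (fun s => Real.log (g p s)) := by
  refine MonotoneOn.convexOn_of_deriv hD hc
    (fun s hs => (log_deriv (hpos s hs)).differentiableAt.differentiableWithinAt) ?_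
  have h1 : MonotoneOn (fun s => g1 p s / g p s) (interior D) := by
    refine monotoneOn_of_deriv_nonneg hD.interior
      (fun s hs => (log_deriv2 (hpos s hs)).continuousAt.continuousWithinAt) ?_ ?_
    · rw [interior_interior]
      exact fun s hs => (log_deriv2 (hpos s hs)).differentiableAt.differentiableWithinAt
    · rw [interior_interior]
      intro s hs
      rw [(log_deriv2 (hpos s hs)).deriv]
      have := hk s hs
      positivity
  intro x hx y hy hxy
  rw [(log_deriv (hpos x hx)).deriv, (log_deriv (hpos y hy)).deriv]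
  exact h1 hx hy hxy

/-- `log g_p` is convex on `[1,∞)` for `p < 0`. -/
lemma convex_right {p : ℝ} (hp : p < 0) : ConvexOn ℝ (Ici 1) (fun s => Real.log (g p s)) := by
  refine convex_of_key (convex_Ici 1) ?_ ?_ ?_
  · intro s hs
    have h0 : (0:ℝ) < s := lt_of_lt_of_le one_pos hs
    exact (log_deriv h0).continuousAt.continuousWithinAt
  · intro s hs
    rw [interior_Ici] at hs
    exact one_pos.trans hs
  · intro s hs
    rw [interior_Ici] at hs
    exact key_right hp hs

/-- `log g_p` is convex on `[-1,1]` for `p ≥ 1`. -/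
lemma convex_left {p : ℝ} (hp : 1 ≤ p) :
    ConvexOn ℝ (Icc (-1) 1) (fun s => Real.log (g p s)) := by
  have hc : Continuous (fun s => Real.log (g p s)) :=
    (g_continuous (by linarith)).log fun s => (g_pos_of_nonneg (by linarith) s).ne'
  have h1 : ConvexOn ℝ (Icc 0 1) (fun s => Real.log (g p s)) := by
    refine convex_of_key (convex_Icc 0 1) hc.continuousOn ?_ ?_
    · intro s hs
      rw [interior_Icc] at hs
      exact hs.1
    · intro s hs
      rw [interior_Icc] at hs
      exact key_left hp hs.1 hs.2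
  have h2 : MonotoneOn (fun s => Real.log (g p s)) (Icc 0 1) := by
    refine monotoneOn_of_deriv_nonneg (convex_Icc 0 1) hc.continuousOn ?_ ?_
    · intro s hs
      rw [interior_Icc] at hs
      exact (log_deriv hs.1).differentiableAt.differentiableWithinAt
    · intro s hs
      rw [interior_Icc] at hs
      rw [(log_deriv hs.1).deriv]
      exact div_nonneg (g1_nonneg (by linarith) hs.1) (g_pos_of_pos p hs.1).le
  have heven : ∀ s, g p |s| = g p s := by
    intro s
    unfold g W
    simp only [sq_abs]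
  refine ⟨convex_Icc _ _, ?_⟩
  intro x hx y hy a b ha hb hab
  have hx' : |x| ∈ Icc (0:ℝ) 1 := ⟨abs_nonneg _, abs_le.2 hx⟩
  have hy' : |y| ∈ Icc (0:ℝ) 1 := ⟨abs_nonneg _, abs_le.2 hy⟩
  have h3 := h1.2 hx' hy' ha hb hab
  have hz : |a • x + b • y| ∈ Icc (0:ℝ) 1 :=
    ⟨abs_nonneg _, abs_le.2 (convex_Icc (-1:ℝ) 1 hx hy ha hb hab)⟩
  have hz2 : |a • x + b • y| ≤ a • |x| + b • |y| := by
    simp only [smul_eq_mul]
    calc |a * x + b * y| ≤ |a * x| + |b * y| := abs_add_le _ _
      _ = a * |x| + b * |y| := by rw [abs_mul, abs_mul, abs_of_nonneg ha, abs_of_nonneg hb]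
  have h4 := h2 hz (h1.1 hx' hy' ha hb hab) hz2
  simp only [heven] at h3 h4
  linarith

/-- the case `c = 0` -/
lemma convex_exp {n : ℝ} (hn : 0 < n) : ConvexOn ℝ (Ici 0)
    (fun x => Real.log (∫ φ in (0:ℝ)..π, exp (-4 * n * x * sin (φ / 2) ^ 2))) := by
  have hint : ∀ x : ℝ, IntervalIntegrable (fun φ => exp (-4 * n * x * sin (φ / 2) ^ 2)) volume 0 π :=
    fun x => (by fun_prop : Continuous _).intervalIntegrable _ _
  have hpos : ∀ x : ℝ, 0 < ∫ φ in (0:ℝ)..π, exp (-4 * n * x * sin (φ / 2) ^ 2) := fun x =>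
    intervalIntegral.intervalIntegral_pos_of_pos (hint x) (fun φ => exp_pos _) pi_pos
  -- supporting lines
  have hsup : ∀ z : ℝ, ∃ k : ℝ, ∀ x : ℝ,
      Real.log (∫ φ in (0:ℝ)..π, exp (-4 * n * z * sin (φ / 2) ^ 2)) + (x - z) * k ≤
      Real.log (∫ φ in (0:ℝ)..π, exp (-4 * n * x * sin (φ / 2) ^ 2)) := by
    intro z
    set K := ∫ φ in (0:ℝ)..π, exp (-4 * n * z * sin (φ / 2) ^ 2) with hK
    set L := ∫ φ in (0:ℝ)..π, exp (-4 * n * z * sin (φ / 2) ^ 2) * (-4 * n * sin (φ / 2) ^ 2) with hL
    have hKp : 0 < K := hpos z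
    refine ⟨L / K, fun x => ?_⟩
    have hiL : IntervalIntegrable (fun φ => exp (-4 * n * z * sin (φ / 2) ^ 2) *
        (-4 * n * sin (φ / 2) ^ 2)) volume 0 π := (by fun_prop : Continuous _).intervalIntegrable _ _
    have h1 : K * exp ((x - z) * (L / K)) ≤
        ∫ φ in (0:ℝ)..π, exp (-4 * n * x * sin (φ / 2) ^ 2) := by
      have e1 : K * exp ((x - z) * (L / K)) = ∫ φ in (0:ℝ)..π, (exp ((x - z) * (L / K)) *
          (1 - (x - z) * (L / K)) * exp (-4 * n * z * sin (φ / 2) ^ 2) +
          exp ((x - z) * (L / K)) * (x - z) * (exp (-4 * n * z * sin (φ / 2) ^ 2) *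
          (-4 * n * sin (φ / 2) ^ 2))) := by
        rw [intervalIntegral.integral_add ((hint z).const_mul _) (hiL.const_mul _),
          intervalIntegral.integral_const_mul, intervalIntegral.integral_const_mul, ← hK, ← hL]
        field_simp
        ring
      rw [e1]
      refine intervalIntegral.integral_mono_on pi_pos.le
        (((hint z).const_mul _).add (hiL.const_mul _)) (hint x) fun φ _ => ?_
      have e2 : exp (-4 * n * x * sin (φ / 2) ^ 2) = exp ((x - z) * (L / K)) *
          exp (-4 * n * z * sin (φ / 2) ^ 2) *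
          exp ((x - z) * (-4 * n * sin (φ / 2) ^ 2) - (x - z) * (L / K)) := by
        rw [← exp_add, ← exp_add]
        congr 1
        ring
      rw [e2]
      have h2 := add_one_le_exp ((x - z) * (-4 * n * sin (φ / 2) ^ 2) - (x - z) * (L / K))
      have h3 : 0 < exp ((x - z) * (L / K)) * exp (-4 * n * z * sin (φ / 2) ^ 2) := by positivity
      nlinarith [mul_le_mul_of_nonneg_left h2 h3.le]
    have h2 := Real.log_le_log (by positivity) h1
    rw [Real.log_mul hKp.ne' (exp_pos _).ne', Real.log_exp] at h2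
    exact h2
  refine ⟨convex_Ici 0, ?_⟩
  intro x _ y _ a b ha hb hab
  obtain ⟨k, hk⟩ := hsup (a • x + b • y)
  have h1 := hk x
  have h2 := hk y
  simp only [smul_eq_mul] at *
  have h3 : a * (x - (a * x + b * y)) + b * (y - (a * x + b * y)) = 0 := by
    have : b = 1 - a := by linarith
    subst this
    ring
  have h4 := mul_le_mul_of_nonneg_left h1 ha
  have h5 := mul_le_mul_of_nonneg_left h2 hb
  have h6 : ∀ t : ℝ, a * t + b * t = t := fun t => by rw [← add_mul, hab, one_mul]
  have h7 := h6 (Real.log (∫ φ in (0:ℝ)..π, exp (-4 * n * (a * x + b * y) * sin (φ / 2) ^ 2)))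
  linear_combination h4 + h5 - h7 - k * h3

end Pool.Agent.U527.Rasa
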