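import Mathlib

set_option autoImplicit false

open Real MeasureTheory Set Filter Topology

namespace Pool.Agent.U527.Rasa

/-- `W s φ = cos² (φ/2) + s² sin² (φ/2)` -/
noncomputable def W (s φ : ℝ) : ℝ := cos (φ / 2) ^ 2 + s ^ 2 * sin (φ / 2) ^ 2

lemma W_pos {s : ℝ} (hs : 0 < s) (φ : ℝ) : 0 < W s φ := by
  unfold W
  have h := sin_sq_add_cos_sq (φ / 2)
  by_cases h0 : sin (φ / 2) = 0
  · rw [h0] at h ⊢
    nlinarith
  · have h1 : 0 < sin (φ / 2) ^ 2 := by positivity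
    positivity

lemma W_nonneg (s φ : ℝ) : 0 ≤ W s φ := by unfold W; positivity

lemma W_cont : Continuous (Function.uncurry W) := by
  unfold W Function.uncurry
  fun_prop

lemma W_rpow_cont (q : ℝ) : ContinuousOn (fun z : ℝ × ℝ => W z.1 z.2 ^ q) (Ioi 0 ×ˢ univ) := by
  refine ContinuousOn.rpow_const (f := fun z : ℝ × ℝ => W z.1 z.2) ?_ ?_
  · exact W_cont.continuousOn
  · intro z hz
    exact Or.inl (W_pos hz.1 z.2).ne'

/-- Differentiation under the integral sign. -/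
lemma param_deriv {F F' : ℝ → ℝ → ℝ} {a b : ℝ}
    (hF : ContinuousOn (fun z : ℝ × ℝ => F z.1 z.2) (Ioi 0 ×ˢ univ))
    (hF' : ContinuousOn (fun z : ℝ × ℝ => F' z.1 z.2) (Ioi 0 ×ˢ univ))
    (hd : ∀ x, 0 < x → ∀ t, HasDerivAt (fun x => F x t) (F' x t) x) {x₀ : ℝ} (hx : 0 < x₀) :
    HasDerivAt (fun x => ∫ t in a..b, F x t) (∫ t in a..b, F' x₀ t) x₀ := by
  have hK : IsCompact (Icc (x₀ / 2) (2 * x₀) ×ˢ uIcc a b) := isCompact_Icc.prod isCompact_uIcc
  have hsub : Icc (x₀ / 2) (2 * x₀) ×ˢ uIcc a b ⊆ Ioi (0 : ℝ) ×ˢ (univ : Set ℝ) := by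
    rintro ⟨x, t⟩ ⟨h1, h2⟩
    exact ⟨lt_of_lt_of_le (by positivity : (0:ℝ) < x₀ / 2) h1.1, mem_univ _⟩
  obtain ⟨C, hC⟩ := hK.exists_bound_of_continuousOn (hF'.mono hsub)
  have hc : ∀ G : ℝ → ℝ → ℝ, ContinuousOn (fun z : ℝ × ℝ => G z.1 z.2) (Ioi 0 ×ˢ univ) →
      ∀ x, 0 < x → Continuous (G x) := by
    intro G hG x hx
    rw [← continuousOn_univ]
    exact hG.comp (f := fun t => (x, t)) (by fun_prop) (fun t _ => ⟨hx, mem_univ _⟩)
  refine (intervalIntegral.hasDerivAt_integral_of_dominated_loc_of_deriv_le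
    (bound := fun _ => C) (s := Icc (x₀ / 2) (2 * x₀))
    (Icc_mem_nhds (by linarith) (by linarith)) ?_ ?_ ?_ ?_ ?_ ?_).2
  · filter_upwards [lt_mem_nhds hx] with x hx
    exact (hc F hF x hx).aestronglyMeasurable
  · exact (hc F hF x₀ hx).intervalIntegrable _ _
  · exact (hc F' hF' x₀ hx).aestronglyMeasurable
  · refine Eventually.of_forall fun t ht x hx => ?_
    exact hC (x, t) ⟨hx, uIoc_subset_uIcc ht⟩
  · exact intervalIntegrable_const
  · refine Eventually.of_forall fun t _ x hx => ?_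
    exact hd x (lt_of_lt_of_le (by positivity : (0:ℝ) < x₀ / 2) hx.1) t

noncomputable def g (p s : ℝ) : ℝ := ∫ φ in (0:ℝ)..π, W s φ ^ p

noncomputable def g1 (p s : ℝ) : ℝ :=
  ∫ φ in (0:ℝ)..π, p * W s φ ^ (p - 1) * (2 * s * sin (φ / 2) ^ 2)

noncomputable def g2 (p s : ℝ) : ℝ :=
  ∫ φ in (0:ℝ)..π, (p * ((p - 1) * W s φ ^ (p - 2) * (2 * s * sin (φ / 2) ^ 2)) *
    (2 * s * sin (φ / 2) ^ 2) + p * W s φ ^ (p - 1) * (2 * sin (φ / 2) ^ 2))

lemma hasDerivAt_W (s φ : ℝ) : HasDerivAt (fun s => W s φ) (2 * s * sin (φ / 2) ^ 2) s := by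
  unfold W
  have h := ((hasDerivAt_pow 2 s).mul_const (sin (φ / 2) ^ 2)).const_add (cos (φ / 2) ^ 2)
  refine h.congr_deriv ?_
  norm_num

lemma hasDerivAt_Wp (q : ℝ) {s : ℝ} (hs : 0 < s) (φ : ℝ) :
    HasDerivAt (fun s => W s φ ^ q) (q * W s φ ^ (q - 1) * (2 * s * sin (φ / 2) ^ 2)) s := by
  have h := (hasDerivAt_W s φ).rpow_const (p := q) (Or.inl (W_pos hs φ).ne')
  refine h.congr_deriv ?_
  ring

lemma hasDerivAt_g (p : ℝ) {s : ℝ} (hs : 0 < s) : HasDerivAt (g p) (g1 p s) s := by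
  refine param_deriv (F := fun s φ => W s φ ^ p)
    (F' := fun s φ => p * W s φ ^ (p - 1) * (2 * s * sin (φ / 2) ^ 2)) ?_ ?_ ?_ hs
  · exact W_rpow_cont p
  · refine ContinuousOn.mul (ContinuousOn.mul continuousOn_const (W_rpow_cont (p - 1))) ?_
    fun_prop
  · intro x hx t
    exact hasDerivAt_Wp p hx t

lemma hasDerivAt_g1 (p : ℝ) {s : ℝ} (hs : 0 < s) : HasDerivAt (g1 p) (g2 p s) s := by
  refine param_deriv (F := fun s φ => p * W s φ ^ (p - 1) * (2 * s * sin (φ / 2) ^ 2))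
    (F' := fun s φ => p * ((p - 1) * W s φ ^ (p - 2) * (2 * s * sin (φ / 2) ^ 2)) *
    (2 * s * sin (φ / 2) ^ 2) + p * W s φ ^ (p - 1) * (2 * sin (φ / 2) ^ 2)) ?_ ?_ ?_ hs
  · refine ContinuousOn.mul (ContinuousOn.mul continuousOn_const (W_rpow_cont (p - 1))) ?_
    fun_prop
  · refine ContinuousOn.add (ContinuousOn.mul (ContinuousOn.mul continuousOn_const
      (ContinuousOn.mul (ContinuousOn.mul continuousOn_const (W_rpow_cont (p - 2))) ?_)) ?_)
      (ContinuousOn.mul (ContinuousOn.mul continuousOn_const (W_rpow_cont (p - 1))) ?_)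
    all_goals fun_prop
  · intro x hx t
    have h1 := (hasDerivAt_Wp (p - 1) hx t).const_mul p
    have h2 : HasDerivAt (fun s : ℝ => 2 * s * sin (t / 2) ^ 2) (2 * sin (t / 2) ^ 2) x := by
      have := ((hasDerivAt_id x).const_mul (2:ℝ)).mul_const (sin (t / 2) ^ 2)
      refine this.congr_deriv ?_
      ring
    refine (h1.mul h2).congr_deriv ?_
    rw [show p - 1 - 1 = p - 2 by ring]

/-- The differential equation. -/
lemma ode (p : ℝ) {s : ℝ} (hs : 0 < s) :
    s * (1 - s ^ 2) * g2 p s = (2 * p - (2 * p - 2) * s ^ 2) * g1 p s - 2 * p * s * g p s := by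
  have hW : ∀ φ, 0 < W s φ := W_pos hs
  have hc : Continuous (fun φ => W s φ) := by unfold W; fun_prop
  have hcq : ∀ q : ℝ, Continuous (fun φ => W s φ ^ q) := fun q =>
    hc.rpow_const fun φ => Or.inl (hW φ).ne'
  have key : ∫ φ in (0:ℝ)..π,
      (4 * p * s * ((1 / 2 * cos (φ / 2) * cos (φ / 2) - 1 / 2 * sin (φ / 2) * sin (φ / 2)) *
        W s φ ^ (p - 1) + sin (φ / 2) * cos (φ / 2) * ((p - 1) * W s φ ^ (p - 2) *
        ((s ^ 2 - 1) * sin (φ / 2) * cos (φ / 2))))) = 0 := by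
    have hd : ∀ φ ∈ uIcc (0:ℝ) π, HasDerivAt
        (fun φ => 4 * p * s * (sin (φ / 2) * cos (φ / 2) * W s φ ^ (p - 1)))
        (4 * p * s * ((1 / 2 * cos (φ / 2) * cos (φ / 2) - 1 / 2 * sin (φ / 2) * sin (φ / 2)) *
        W s φ ^ (p - 1) + sin (φ / 2) * cos (φ / 2) * ((p - 1) * W s φ ^ (p - 2) *
        ((s ^ 2 - 1) * sin (φ / 2) * cos (φ / 2))))) φ := by
      intro φ _
      have h0 : HasDerivAt (fun φ : ℝ => φ / 2) (1 / 2) φ := (hasDerivAt_id φ).div_const 2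
      have hsn : HasDerivAt (fun φ : ℝ => sin (φ / 2)) (cos (φ / 2) * (1 / 2)) φ := h0.sin
      have hcs : HasDerivAt (fun φ : ℝ => cos (φ / 2)) (-sin (φ / 2) * (1 / 2)) φ := h0.cos
      have hWd : HasDerivAt (fun φ => W s φ) ((s ^ 2 - 1) * sin (φ / 2) * cos (φ / 2)) φ := by
        unfold W
        have := (hcs.pow 2).add ((hsn.pow 2).const_mul (s ^ 2))
        refine this.congr_deriv ?_
        simp only [Nat.cast_ofNat]
        ring
      have hWp := hWd.rpow_const (p := p - 1) (Or.inl (hW φ).ne')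
      refine (((hsn.mul hcs).mul hWp).const_mul (4 * p * s)).congr_deriv ?_
      rw [show p - 1 - 1 = p - 2 by ring]
      simp only [Pi.mul_apply]
      ring
    rw [intervalIntegral.integral_eq_sub_of_hasDerivAt hd]
    · simp
    · apply Continuous.intervalIntegrable
      have h1 := hcq (p - 1)
      have h2 := hcq (p - 2)
      fun_prop
  have i1 : IntervalIntegrable (fun φ => p * ((p - 1) * W s φ ^ (p - 2) *
      (2 * s * sin (φ / 2) ^ 2)) * (2 * s * sin (φ / 2) ^ 2) +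
      p * W s φ ^ (p - 1) * (2 * sin (φ / 2) ^ 2)) volume 0 π := by
    apply Continuous.intervalIntegrable
    have h1 := hcq (p - 1)
    have h2 := hcq (p - 2)
    fun_prop
  have i2 : IntervalIntegrable (fun φ => p * W s φ ^ (p - 1) * (2 * s * sin (φ / 2) ^ 2))
      volume 0 π := by
    apply Continuous.intervalIntegrable
    have h1 := hcq (p - 1)
    fun_prop
  have i3 : IntervalIntegrable (fun φ => W s φ ^ p) volume 0 π := (hcq p).intervalIntegrable _ _
  have h4 : s * (1 - s ^ 2) * g2 p s - (2 * p - (2 * p - 2) * s ^ 2) * g1 p s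
      + 2 * p * s * g p s = 0 := by
    rw [← key]
    unfold g g1 g2
    rw [← intervalIntegral.integral_const_mul, ← intervalIntegral.integral_const_mul,
      ← intervalIntegral.integral_const_mul, ← intervalIntegral.integral_sub (i1.const_mul _)
      (i2.const_mul _), ← intervalIntegral.integral_add ((i1.const_mul _).sub (i2.const_mul _))
      (i3.const_mul _)]
    congr 1
    funext φ
    have hp1 : W s φ ^ (p - 1) = W s φ ^ (p - 2) * W s φ := by
      rw [← rpow_add_one (hW φ).ne']; congr 1; ring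
    have hp0 : W s φ ^ p = W s φ ^ (p - 2) * W s φ ^ 2 := by
      rw [← rpow_add_natCast (hW φ).ne']; congr 1; push_cast; ring
    rw [hp0, hp1]
    generalize W s φ ^ (p - 2) = E
    have hcc : cos (φ / 2) ^ 2 = 1 - sin (φ / 2) ^ 2 := by
      have := sin_sq_add_cos_sq (φ / 2); linarith
    have e1 : cos (φ / 2) * cos (φ / 2) = 1 - sin (φ / 2) ^ 2 := by rw [← hcc]; ring
    have hWe : W s φ = 1 - sin (φ / 2) ^ 2 + s ^ 2 * sin (φ / 2) ^ 2 := by
      unfold W; rw [hcc]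
    rw [hWe]
    generalize sin (φ / 2) = S at *
    generalize cos (φ / 2) = C at *
    linear_combination (-(4 * p * s * (1 / 2) * (E * (1 - S ^ 2 + s ^ 2 * S ^ 2))) -
      4 * p * s * S ^ 2 * ((p - 1) * E * (s ^ 2 - 1))) * e1
  linarith

end Pool.Agent.U527.Rasa
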