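import Pool.Agent.U527.Rasa.Core

set_option autoImplicit false

open Real MeasureTheory Set Filter Topology

namespace Pool.Agent.U527.Rasa

lemma g_pos_of_pos (p : ℝ) {s : ℝ} (hs : 0 < s) : 0 < g p s := by
  unfold g
  refine intervalIntegral.intervalIntegral_pos_of_pos ?_ (fun φ => rpow_pos_of_pos (W_pos hs φ) _) pi_pos
  apply Continuous.intervalIntegrable
  have hc : Continuous (fun φ => W s φ) := by unfold W; fun_prop
  exact hc.rpow_const fun φ => Or.inl (W_pos hs φ).ne'

noncomputable def V (p s : ℝ) : ℝ := s ^ (-p - 1) * (1 - s ^ 2) * (p * g p s - s * g1 p s)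

noncomputable def V2 (p s : ℝ) : ℝ := s ^ (-2 * p - 2) * (1 - s ^ 2) * (g p s + s * g1 p s)

noncomputable def R (p s : ℝ) : ℝ :=
  s ^ (-2 * p) * (1 - s ^ 2) * (g p s * ((2 * p - (2 * p - 2) * s ^ 2) * g1 p s - 2 * p * s * g p s)
    - s * (1 - s ^ 2) * g1 p s ^ 2)

noncomputable def B (p s : ℝ) : ℝ :=
  (1 - 3 * s ^ 2) * g1 p s ^ 2 + 4 * (p - 1) * s * g p s * g1 p s + 2 * p * g p s ^ 2

lemma hasDerivAt_V (p : ℝ) {s : ℝ} (hs : 0 < s) :
    HasDerivAt (V p) (-(p * (p + 1) * s ^ (-p - 2) * (1 - s ^ 2) * g p s)) s := by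
  have hr : HasDerivAt (fun s : ℝ => s ^ (-p - 1)) ((-p - 1) * s ^ (-p - 1 - 1)) s :=
    Real.hasDerivAt_rpow_const (Or.inl hs.ne')
  have hq : HasDerivAt (fun s : ℝ => 1 - s ^ 2) (-(2 * s)) s := by
    simpa using (hasDerivAt_pow 2 s).const_sub 1
  have hg := hasDerivAt_g p hs
  have hg1 := hasDerivAt_g1 p hs
  have h := (hr.mul hq).mul ((hg.const_mul p).sub ((hasDerivAt_id s).mul hg1))
  refine h.congr_deriv ?_
  have e1 : s ^ (-p - 1 - 1) = s ^ (-p - 2) := by congr 1; ring
  have e2 : s ^ (-p - 1) = s ^ (-p - 2) * s := by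
    rw [← rpow_add_one hs.ne']; congr 1; ring
  simp only [Pi.mul_apply, Pi.sub_apply, id]
  rw [e1, e2]
  have ho := ode p hs
  generalize s ^ (-p - 2) = E at *
  linear_combination (-(E * s)) * ho

lemma hasDerivAt_V2 (p : ℝ) {s : ℝ} (hs : 0 < s) :
    HasDerivAt (V2 p) (-(2 * (p + 1) * s ^ (-2 * p - 3) * g p s)) s := by
  have hr : HasDerivAt (fun s : ℝ => s ^ (-2 * p - 2)) ((-2 * p - 2) * s ^ (-2 * p - 2 - 1)) s :=
    Real.hasDerivAt_rpow_const (Or.inl hs.ne')
  have hq : HasDerivAt (fun s : ℝ => 1 - s ^ 2) (-(2 * s)) s := by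
    simpa using (hasDerivAt_pow 2 s).const_sub 1
  have hg := hasDerivAt_g p hs
  have hg1 := hasDerivAt_g1 p hs
  have h := (hr.mul hq).mul (hg.add ((hasDerivAt_id s).mul hg1))
  refine h.congr_deriv ?_
  have e1 : s ^ (-2 * p - 2 - 1) = s ^ (-2 * p - 3) := by congr 1; ring
  have e2 : s ^ (-2 * p - 2) = s ^ (-2 * p - 3) * s := by
    rw [← rpow_add_one hs.ne']; congr 1; ring
  simp only [Pi.mul_apply, Pi.add_apply, id]
  rw [e1, e2]
  have ho := ode p hs
  generalize s ^ (-2 * p - 3) = E at *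
  linear_combination (E * s) * ho

lemma hasDerivAt_R (p : ℝ) {s : ℝ} (hs : 0 < s) :
    HasDerivAt (R p) (-(s ^ (-2 * p) * (1 - s ^ 2) * B p s)) s := by
  have hr : HasDerivAt (fun s : ℝ => s ^ (-2 * p)) ((-2 * p) * s ^ (-2 * p - 1)) s :=
    Real.hasDerivAt_rpow_const (Or.inl hs.ne')
  have hq : HasDerivAt (fun s : ℝ => 1 - s ^ 2) (-(2 * s)) s := by
    simpa using (hasDerivAt_pow 2 s).const_sub 1
  have hsq : HasDerivAt (fun s : ℝ => s ^ 2) (2 * s) s := by
    simpa using (hasDerivAt_pow 2 s)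
  have hg := hasDerivAt_g p hs
  have hg1 := hasDerivAt_g1 p hs
  have hid := hasDerivAt_id s
  have hA : HasDerivAt (fun s : ℝ => 2 * p - (2 * p - 2) * s ^ 2) (-((2 * p - 2) * (2 * s))) s := by
    simpa using (hsq.const_mul (2 * p - 2)).const_sub (2 * p)
  have hL := (hA.mul hg1).sub ((hid.const_mul (2 * p)).mul hg)
  have hQ := (hg.mul hL).sub ((hid.mul hq).mul (hg1.pow 2))
  have h := (hr.mul hq).mul hQ
  refine h.congr_deriv ?_
  have e2 : s ^ (-2 * p) = s ^ (-2 * p - 1) * s := by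
    rw [← rpow_add_one hs.ne']; congr 1; ring
  simp only [Pi.mul_apply, Pi.add_apply, Pi.sub_apply, Pi.pow_apply, id, Nat.cast_ofNat]
  rw [e2]
  have ho := ode p hs
  unfold B
  generalize s ^ (-2 * p - 1) = E at *
  linear_combination (E * (g p s * (2 * p - (2 * p - 2) * s ^ 2) - 2 * s * (1 - s ^ 2) * g1 p s)) * ho

lemma V_one (p : ℝ) : V p 1 = 0 := by unfold V; simp
lemma V2_one (p : ℝ) : V2 p 1 = 0 := by unfold V2; simp
lemma R_one (p : ℝ) : R p 1 = 0 := by unfold R; simp

/-- A function on `(0,∞)` with value `0` at `1`: sign from the sign of the derivative. -/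
lemma nonneg_left {f f' : ℝ → ℝ} (hd : ∀ s, 0 < s → HasDerivAt f (f' s) s) (h1 : f 1 = 0)
    (hs : ∀ s, 0 < s → s < 1 → f' s ≤ 0) {s : ℝ} (h0 : 0 < s) (hs1 : s ≤ 1) : 0 ≤ f s := by
  have h := antitoneOn_of_deriv_nonpos (D := Icc s 1) (f := f) (convex_Icc _ _)
    (fun x hx => (hd x (lt_of_lt_of_le h0 hx.1)).continuousAt.continuousWithinAt)
    (fun x hx => by
      rw [interior_Icc] at hx
      exact (hd x (h0.trans hx.1)).differentiableAt.differentiableWithinAt)
    (fun x hx => by
      rw [interior_Icc] at hx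
      rw [(hd x (h0.trans hx.1)).deriv]
      exact hs x (h0.trans hx.1) hx.2)
  have := h (left_mem_Icc.2 hs1) (right_mem_Icc.2 hs1) hs1
  rwa [h1] at this

lemma nonneg_right {f f' : ℝ → ℝ} (hd : ∀ s, 0 < s → HasDerivAt f (f' s) s) (h1 : f 1 = 0)
    (hs : ∀ s, 1 < s → 0 ≤ f' s) {s : ℝ} (hs1 : 1 ≤ s) : 0 ≤ f s := by
  have h := monotoneOn_of_deriv_nonneg (D := Icc 1 s) (f := f) (convex_Icc _ _)
    (fun x hx => (hd x (lt_of_lt_of_le one_pos hx.1)).continuousAt.continuousWithinAt)
    (fun x hx => by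
      rw [interior_Icc] at hx
      exact (hd x (one_pos.trans hx.1)).differentiableAt.differentiableWithinAt)
    (fun x hx => by
      rw [interior_Icc] at hx
      rw [(hd x (one_pos.trans hx.1)).deriv]
      exact hs x hx.1)
  have := h (left_mem_Icc.2 hs1) (right_mem_Icc.2 hs1) hs1
  rwa [h1] at this

lemma nonpos_right {f f' : ℝ → ℝ} (hd : ∀ s, 0 < s → HasDerivAt f (f' s) s) (h1 : f 1 = 0)
    (hs : ∀ s, 1 < s → f' s ≤ 0) {s : ℝ} (hs1 : 1 ≤ s) : f s ≤ 0 := by
  have h := nonneg_right (f := fun s => -f s) (f' := fun s => -f' s)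
    (fun s h0 => (hd s h0).neg) (by simp [h1]) (fun s h => by simpa using hs s h) hs1
  linarith

lemma g1_nonneg {p : ℝ} (hp : 0 ≤ p) {s : ℝ} (hs : 0 < s) : 0 ≤ g1 p s := by
  unfold g1
  refine intervalIntegral.integral_nonneg pi_pos.le fun φ _ => ?_
  have := rpow_nonneg (W_nonneg s φ) (p - 1)
  positivity

/-- the key inequality on `(0,1)` for `p ≥ 1` -/
lemma key_left {p : ℝ} (hp : 1 ≤ p) {s : ℝ} (h0 : 0 < s) (h1 : s < 1) :
    0 ≤ g p s * g2 p s - g1 p s ^ 2 := by
  have hB : ∀ s, 0 < s → s < 1 → 0 ≤ B p s := by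
    intro s h0 h1
    have hs2 : 0 < 1 - s ^ 2 := by nlinarith
    have hG := g_pos_of_pos p h0
    have hH := g1_nonneg (by linarith : 0 ≤ p) h0
    have hV : 0 ≤ V p s := nonneg_left (fun s h => hasDerivAt_V p h) (V_one p) (fun s h0 h1 => by
      have : 0 < 1 - s ^ 2 := by nlinarith
      have h2 := g_pos_of_pos p h0
      have h3 : 0 < s ^ (-p - 2) := rpow_pos_of_pos h0 _
      have : 0 ≤ p * (p + 1) * s ^ (-p - 2) * (1 - s ^ 2) * g p s := by
        have : 0 ≤ p * (p + 1) := by nlinarith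
        positivity
      linarith) h0 h1.le
    have hD : 0 ≤ p * g p s - s * g1 p s := by
      unfold V at hV
      have h3 : 0 < s ^ (-p - 1) * (1 - s ^ 2) := mul_pos (rpow_pos_of_pos h0 _) hs2
      exact nonneg_of_mul_nonneg_right hV h3
    unfold B
    by_cases h3 : 1 ≤ 3 * s ^ 2
    · have e : s ^ 2 * ((1 - 3 * s ^ 2) * g1 p s ^ 2 + 4 * (p - 1) * s * g p s * g1 p s +
          2 * p * g p s ^ 2) = (3 * s ^ 2 - 1) * (g p s + s * g1 p s) * (p * g p s - s * g1 p s) +
          (p - 1) * (s ^ 2 + 1) * s * g1 p s * g p s + (1 - s ^ 2) * p * g p s ^ 2 := by ring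
      have h4 : 0 ≤ s ^ 2 * ((1 - 3 * s ^ 2) * g1 p s ^ 2 + 4 * (p - 1) * s * g p s * g1 p s +
          2 * p * g p s ^ 2) := by
        rw [e]
        have a1 : 0 ≤ 3 * s ^ 2 - 1 := by linarith
        have a2 : 0 ≤ p - 1 := by linarith
        have a3 : 0 ≤ p := by linarith
        positivity
      exact nonneg_of_mul_nonneg_right h4 (by positivity)
    · have a1 : 0 ≤ 1 - 3 * s ^ 2 := by linarith
      have a2 : 0 ≤ p - 1 := by linarith
      have a3 : 0 ≤ p := by linarith
      positivity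
  have hR : 0 ≤ R p s := nonneg_left (fun s h => hasDerivAt_R p h) (R_one p) (fun s h0 h1 => by
      have h2 : 0 < 1 - s ^ 2 := by nlinarith
      have h3 : 0 < s ^ (-2 * p) := rpow_pos_of_pos h0 _
      have := hB s h0 h1
      have : 0 ≤ s ^ (-2 * p) * (1 - s ^ 2) * B p s := by positivity
      linarith) h0 h1.le
  have hs2 : 0 < 1 - s ^ 2 := by nlinarith
  have e : R p s = (s ^ (-2 * p) * (1 - s ^ 2) * (s * (1 - s ^ 2))) *
      (g p s * g2 p s - g1 p s ^ 2) := by
    unfold R
    rw [← ode p h0]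
    ring
  rw [e] at hR
  exact nonneg_of_mul_nonneg_right hR (by have := rpow_pos_of_pos h0 (-2 * p); positivity)

/-- the key inequality on `(1,∞)` for `p < 0` -/
lemma key_right {p : ℝ} (hp : p < 0) {s : ℝ} (h1 : 1 < s) :
    0 ≤ g p s * g2 p s - g1 p s ^ 2 := by
  have hB : ∀ s, 1 < s → 0 ≤ B p s := by
    intro s h1
    have h0 : 0 < s := by linarith
    have hs2 : 0 < s ^ 2 - 1 := by nlinarith
    have hG := g_pos_of_pos p h0
    have hH : g1 p s ≤ 0 := by
      unfold g1
      have : 0 ≤ ∫ φ in (0:ℝ)..π, -(p * W s φ ^ (p - 1) * (2 * s * sin (φ / 2) ^ 2)) := by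
        refine intervalIntegral.integral_nonneg pi_pos.le fun φ _ => ?_
        have := rpow_nonneg (W_nonneg s φ) (p - 1)
        have h2 : 0 ≤ (-p) * W s φ ^ (p - 1) * (2 * s * sin (φ / 2) ^ 2) := by
          have : 0 ≤ -p := by linarith
          positivity
        linarith
      rw [intervalIntegral.integral_neg] at this
      linarith
    have hprod : 0 ≤ (g p s + s * g1 p s) * (p * g p s - s * g1 p s) := by
      have f1 : 0 < s ^ (-p - 1) := rpow_pos_of_pos h0 _
      have f2 : 0 < s ^ (-2 * p - 2) := rpow_pos_of_pos h0 _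
      rcases le_total (-1) p with hp1 | hp1
      · have hV : V p s ≤ 0 := nonpos_right (fun s h => hasDerivAt_V p h) (V_one p)
          (fun s h1 => by
            have h0 : 0 < s := by linarith
            have h2 := g_pos_of_pos p h0
            have h3 : 0 < s ^ (-p - 2) := rpow_pos_of_pos h0 _
            have h4 : 0 ≤ (-p) * (p + 1) := by nlinarith
            have h5 : 0 ≤ s ^ 2 - 1 := by nlinarith
            have : 0 ≤ (-p) * (p + 1) * s ^ (-p - 2) * (s ^ 2 - 1) * g p s := by positivity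
            linarith) h1.le
        have hV2 : V2 p s ≤ 0 := nonpos_right (fun s h => hasDerivAt_V2 p h) (V2_one p)
          (fun s h1 => by
            have h0 : 0 < s := by linarith
            have h2 := g_pos_of_pos p h0
            have h3 : 0 < s ^ (-2 * p - 3) := rpow_pos_of_pos h0 _
            have h4 : 0 ≤ p + 1 := by linarith
            have : 0 ≤ 2 * (p + 1) * s ^ (-2 * p - 3) * g p s := by positivity
            linarith) h1.le
        have d1 : 0 ≤ p * g p s - s * g1 p s := by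
          unfold V at hV
          have : 0 ≤ (s ^ (-p - 1) * (s ^ 2 - 1)) * (p * g p s - s * g1 p s) := by linarith
          exact nonneg_of_mul_nonneg_right this (by positivity)
        have d2 : 0 ≤ g p s + s * g1 p s := by
          unfold V2 at hV2
          have : 0 ≤ (s ^ (-2 * p - 2) * (s ^ 2 - 1)) * (g p s + s * g1 p s) := by linarith
          exact nonneg_of_mul_nonneg_right this (by positivity)
        positivity
      · have hV : 0 ≤ V p s := nonneg_right (fun s h => hasDerivAt_V p h) (V_one p)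
          (fun s h1 => by
            have h0 : 0 < s := by linarith
            have h2 := g_pos_of_pos p h0
            have h3 : 0 < s ^ (-p - 2) := rpow_pos_of_pos h0 _
            have h4 : 0 ≤ p * (p + 1) := by nlinarith
            have h5 : 0 ≤ s ^ 2 - 1 := by nlinarith
            have : 0 ≤ p * (p + 1) * s ^ (-p - 2) * (s ^ 2 - 1) * g p s := by positivity
            linarith) h1.le
        have hV2 : 0 ≤ V2 p s := nonneg_right (fun s h => hasDerivAt_V2 p h) (V2_one p)
          (fun s h1 => by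
            have h0 : 0 < s := by linarith
            have h2 := g_pos_of_pos p h0
            have h3 : 0 < s ^ (-2 * p - 3) := rpow_pos_of_pos h0 _
            have h4 : 0 ≤ -(p + 1) := by linarith
            have : 0 ≤ 2 * (-(p + 1)) * s ^ (-2 * p - 3) * g p s := by positivity
            linarith) h1.le
        have d1 : 0 ≤ -(p * g p s - s * g1 p s) := by
          unfold V at hV
          have : 0 ≤ (s ^ (-p - 1) * (s ^ 2 - 1)) * (-(p * g p s - s * g1 p s)) := by linarith
          exact nonneg_of_mul_nonneg_right this (by positivity)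
        have d2 : 0 ≤ -(g p s + s * g1 p s) := by
          unfold V2 at hV2
          have : 0 ≤ (s ^ (-2 * p - 2) * (s ^ 2 - 1)) * (-(g p s + s * g1 p s)) := by linarith
          exact nonneg_of_mul_nonneg_right this (by positivity)
        have := mul_nonneg d2 d1
        linarith
    unfold B
    have e : s ^ 2 * ((1 - 3 * s ^ 2) * g1 p s ^ 2 + 4 * (p - 1) * s * g p s * g1 p s +
          2 * p * g p s ^ 2) = (3 * s ^ 2 - 1) * ((g p s + s * g1 p s) * (p * g p s - s * g1 p s)) +
          (1 - p) * (s ^ 2 + 1) * s * (-g1 p s) * g p s + (s ^ 2 - 1) * (-p) * g p s ^ 2 := by ring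
    have h4 : 0 ≤ s ^ 2 * ((1 - 3 * s ^ 2) * g1 p s ^ 2 + 4 * (p - 1) * s * g p s * g1 p s +
          2 * p * g p s ^ 2) := by
      rw [e]
      have a1 : 0 ≤ 3 * s ^ 2 - 1 := by nlinarith
      have a2 : 0 ≤ 1 - p := by linarith
      have a3 : 0 ≤ -p := by linarith
      have a4 : 0 ≤ -g1 p s := by linarith
      have a5 : 0 ≤ s ^ 2 - 1 := hs2.le
      have b1 := mul_nonneg a1 hprod
      have b2 : 0 ≤ (1 - p) * (s ^ 2 + 1) * s * (-g1 p s) * g p s := by positivity
      have b3 : 0 ≤ (s ^ 2 - 1) * (-p) * g p s ^ 2 := by positivity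
      linarith
    exact nonneg_of_mul_nonneg_right h4 (by positivity)
  have h0 : 0 < s := by linarith
  have hR : 0 ≤ R p s := nonneg_right (fun s h => hasDerivAt_R p h) (R_one p) (fun s h1 => by
      have h0 : 0 < s := by linarith
      have h2 : 0 < s ^ 2 - 1 := by nlinarith
      have h3 : 0 < s ^ (-2 * p) := rpow_pos_of_pos h0 _
      have := hB s h1
      have : 0 ≤ s ^ (-2 * p) * (s ^ 2 - 1) * B p s := by positivity
      linarith) h1.le
  have hs2 : 0 < s ^ 2 - 1 := by nlinarith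
  have e : R p s = (s ^ (-2 * p) * (s ^ 2 - 1) * (s * (s ^ 2 - 1))) *
      (g p s * g2 p s - g1 p s ^ 2) := by
    unfold R
    rw [← ode p h0]
    ring
  rw [e] at hR
  exact nonneg_of_mul_nonneg_right hR (by have := rpow_pos_of_pos h0 (-2 * p); positivity)

end Pool.Agent.U527.Rasa
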